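import Pool.Agent.W745.RW.Stm

/-!
# Project RW (owner helper745), part RA: the smoothing estimate
-/

set_option autoImplicit false

open MeasureTheory Filter Topology Complex
open scoped ContDiff ENNReal

namespace Pool.Agent.W849.RW.RA

open Pool.Agent.W745.RW

theorem lin (L : ℂ →L[ℝ] ℂ) (w : ℂ) : ‖L w‖ ≤ ‖w‖ * (‖L 1‖ + ‖L I‖) := by
  have h1 : L w = w.re • L 1 + w.im • L I := by
    rw [← map_smul, ← map_smul, ← map_add]
    congr 1
    apply Complex.ext <;> simp
  rw [h1]
  calc ‖w.re • L 1 + w.im • L I‖ ≤ ‖w.re • L 1‖ + ‖w.im • L I‖ := norm_add_le _ _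
    _ = |w.re| * ‖L 1‖ + |w.im| * ‖L I‖ := by rw [norm_smul, norm_smul, Real.norm_eq_abs, Real.norm_eq_abs]
    _ ≤ ‖w‖ * ‖L 1‖ + ‖w‖ * ‖L I‖ := by
        gcongr
        · exact Complex.abs_re_le_norm w
        · exact Complex.abs_im_le_norm w
    _ = ‖w‖ * (‖L 1‖ + ‖L I‖) := by ring

theorem ptwise (D : Set ℂ) (hD : IsOpen D) (χ : ℂ → ℂ) (hχ : ContDiffOn ℝ ∞ χ D) (z w : ℂ)
    (h : ∀ t ∈ Set.Icc (0:ℝ) 1, z - t • w ∈ D) :
    ‖χ z - χ (z - w)‖ₑ ≤ ∫⁻ t in Set.Ioc (0:ℝ) 1,
      ENNReal.ofReal (‖w‖ * (‖dx χ (z - t • w)‖ + ‖dy χ (z - t • w)‖)) := by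
  have hd : ∀ t ∈ Set.uIcc (0:ℝ) 1, HasDerivAt (fun t : ℝ => χ (z - t • w))
      (fderiv ℝ χ (z - t • w) (-w)) t := by
    intro t ht
    rw [Set.uIcc_of_le zero_le_one] at ht
    have h1 : HasFDerivAt χ (fderiv ℝ χ (z - t • w)) (z - t • w) := by
      have : DifferentiableAt ℝ χ (z - t • w) :=
        (hχ.differentiableOn (by simp)).differentiableAt (hD.mem_nhds (h t ht))
      exact this.hasFDerivAt
    have h2 : HasDerivAt (fun t : ℝ => z - t • w) (-w) t := by
      have := ((hasDerivAt_id t).smul_const w).const_sub z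
      simpa using this
    exact h1.comp_hasDerivAt t h2
  have hc : ContinuousOn (fun t : ℝ => fderiv ℝ χ (z - t • w) (-w)) (Set.uIcc (0:ℝ) 1) := by
    rw [Set.uIcc_of_le zero_le_one]
    have h1 : ContinuousOn (fderiv ℝ χ) D := hχ.continuousOn_fderiv_of_isOpen hD (by simp)
    have h2 : ContinuousOn (fun t : ℝ => fderiv ℝ χ (z - t • w)) (Set.Icc (0:ℝ) 1) := by
      refine h1.comp (by fun_prop) ?_
      intro t ht
      exact h t ht
    exact h2.clm_apply continuousOn_const
  have key := intervalIntegral.integral_eq_sub_of_hasDerivAt hd hc.intervalIntegrable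
  have e1 : χ z - χ (z - w) = - ∫ t in (0:ℝ)..1, fderiv ℝ χ (z - t • w) (-w) := by
    rw [key]; simp
  rw [e1, enorm_neg, intervalIntegral.integral_of_le zero_le_one]
  refine le_trans (enorm_integral_le_lintegral_enorm _) ?_
  refine lintegral_mono (fun t => ?_)
  simp only [map_neg, enorm_neg]
  rw [← ofReal_norm]
  exact ENNReal.ofReal_le_ofReal (lin _ w)

theorem holder {α : Type*} [MeasurableSpace α] (P : Measure α) [IsProbabilityMeasure P]
    (F : α → ℝ≥0∞) (hF : AEMeasurable F P) : (∫⁻ q, F q ∂P) ^ 2 ≤ ∫⁻ q, F q ^ 2 ∂P := by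
  have h := ENNReal.lintegral_mul_le_Lp_mul_Lq P Real.HolderConjugate.two_two hF
    (aemeasurable_const (b := (1:ℝ≥0∞)))
  simp only [Pi.mul_apply, mul_one, ENNReal.one_rpow, lintegral_const, measure_univ,
    ENNReal.rpow_two, one_pow] at h
  calc (∫⁻ q, F q ∂P) ^ 2 ≤ ((∫⁻ q, F q ^ 2 ∂P) ^ (1 / 2 : ℝ)) ^ 2 := by gcongr
    _ = ∫⁻ q, F q ^ 2 ∂P := by
        rw [← ENNReal.rpow_two, ← ENNReal.rpow_mul]
        norm_num

theorem main : SRa := by
  intro c r K hK hKD
  obtain ⟨s, hs, hsD⟩ := hK.exists_cthickening_subset_open Metric.isOpen_ball hKD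
  refine ⟨Metric.cthickening s K, hK.cthickening, hsD, ?_⟩
  intro ε hε
  obtain ⟨δ, hδ, hδs, hδε⟩ : ∃ δ : ℝ, 0 < δ ∧ δ ≤ s ∧ 2 * δ ^ 2 ≤ ε := by
    refine ⟨min s (Real.sqrt (ε / 2)), ?_, min_le_left _ _, ?_⟩
    · exact lt_min hs (Real.sqrt_pos.mpr (by positivity))
    · have h1 : 0 ≤ min s (Real.sqrt (ε / 2)) := le_min hs.le (Real.sqrt_nonneg _)
      have h2 : min s (Real.sqrt (ε / 2)) ^ 2 ≤ (Real.sqrt (ε / 2)) ^ 2 := by
        gcongr
        exact min_le_right _ _
      rw [Real.sq_sqrt (by positivity)] at h2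
      linarith
  obtain ⟨f, hfr⟩ : ∃ f : ContDiffBump (0 : ℂ), f.rOut = δ :=
    ⟨⟨δ / 2, δ, by positivity, by linarith⟩, rfl⟩
  have hts : tsupport (f.normed volume) = Metric.closedBall (0:ℂ) δ := by
    rw [f.tsupport_normed_eq, hfr]
  have hmem : ∀ z ∈ K, ∀ w : ℂ, ‖w‖ ≤ δ → z - w ∈ Metric.cthickening s K := by
    intro z hz w hw
    refine Metric.mem_cthickening_of_dist_le (z - w) z s K hz ?_
    rw [dist_eq_norm]
    simp only [sub_sub_cancel_left, norm_neg]
    linarith
  refine ⟨f.normed volume, f.contDiff_normed, f.hasCompactSupport_normed, ?_, ?_⟩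
  · intro z hz w hw
    rw [hts] at hw
    exact hmem z hz w (by simpa using hw)
  intro χ hχ
  set D := Metric.ball c r with hDdef
  have hDo : IsOpen D := Metric.isOpen_ball
  set K' := Metric.cthickening s K with hK'def
  have hK'c : IsCompact K' := hK.cthickening
  have hρ0 : ∀ w, 0 ≤ f.normed volume w := fun w => f.nonneg_normed w
  have hρz : ∀ w : ℂ, δ < ‖w‖ → f.normed volume w = 0 := by
    intro w hw
    have : w ∉ tsupport (f.normed volume) := by
      rw [hts]; simpa using hw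
    exact image_eq_zero_of_notMem_tsupport this
  -- the function `g`
  have hcf : ContinuousOn (fderiv ℝ χ) D := hχ.continuousOn_fderiv_of_isOpen hDo (by simp)
  have hcdx : ContinuousOn (fun z => dx χ z) K' := (hcf.clm_apply continuousOn_const).mono hsD
  have hcdy : ContinuousOn (fun z => dy χ z) K' := (hcf.clm_apply continuousOn_const).mono hsD
  have hgi : IntegrableOn (fun z => ‖dx χ z‖ ^ 2 + ‖dy χ z‖ ^ 2) K' :=
    ((hcdx.norm.pow 2).add (hcdy.norm.pow 2)).integrableOn_compact hK'c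
  have hmdx : Measurable (fun z => dx χ z) := measurable_fderiv_apply_const ℝ χ 1
  have hmdy : Measurable (fun z => dy χ z) := measurable_fderiv_apply_const ℝ χ I
  -- the function `N`
  obtain ⟨N, hN⟩ : ∃ N : ℂ → ℝ≥0∞, N = K'.indicator
      (fun z => ENNReal.ofReal (‖dx χ z‖ + ‖dy χ z‖)) := ⟨_, rfl⟩
  have hNm : Measurable N := by
    rw [hN]
    exact (((hmdx.norm).add hmdy.norm).ennreal_ofReal).indicator hK'c.measurableSet
  have hN2 : ∫⁻ z, N z ^ 2 ≤ 2 * ENNReal.ofReal (∫ z in K', (‖dx χ z‖ ^ 2 + ‖dy χ z‖ ^ 2)) := by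
    rw [ofReal_integral_eq_lintegral_ofReal hgi
      (Eventually.of_forall (fun z => by positivity))]
    have e1 : (fun z => N z ^ 2) = K'.indicator
        (fun z => ENNReal.ofReal (‖dx χ z‖ + ‖dy χ z‖) ^ 2) := by
      funext z
      rw [hN]
      by_cases hz : z ∈ K'
      · simp [hz]
      · simp [hz]
    rw [e1, lintegral_indicator hK'c.measurableSet, ← lintegral_const_mul _ (by fun_prop)]
    refine lintegral_mono (fun z => ?_)
    rw [← ENNReal.ofReal_pow (by positivity)]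
    have e2 : (2 : ℝ≥0∞) = ENNReal.ofReal 2 := by simp
    rw [e2, ← ENNReal.ofReal_mul (by norm_num)]
    apply ENNReal.ofReal_le_ofReal
    nlinarith [sq_nonneg (‖dx χ z‖ - ‖dy χ z‖)]
  -- the probability measure
  obtain ⟨ν, hν⟩ : ∃ ν : Measure ℂ, ν = (volume : Measure ℂ).withDensity
      (fun w => ENNReal.ofReal (f.normed volume w)) := ⟨_, rfl⟩
  have hρm : Measurable (fun w => ENNReal.ofReal (f.normed volume w)) :=
    (f.continuous_normed.measurable).ennreal_ofReal
  have hνp : IsProbabilityMeasure ν := by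
    constructor
    rw [hν, withDensity_apply _ MeasurableSet.univ, Measure.restrict_univ,
      ← ofReal_integral_eq_lintegral_ofReal f.integrable_normed
        (Eventually.of_forall (fun z => hρ0 z)), f.integral_normed]
    simp
  have hIp : IsProbabilityMeasure ((volume : Measure ℝ).restrict (Set.Ioc (0:ℝ) 1)) := by
    constructor
    simp
  have hGm : Measurable (fun q : ℂ × (ℂ × ℝ) => N (q.1 - q.2.2 • q.2.1)) := by
    apply hNm.comp
    fun_prop
  -- pointwise bound
  have hP : ∀ z ∈ K, ENNReal.ofReal (‖χ z - ∫ w, (f.normed volume w : ℂ) * χ (z - w)‖ ^ 2) ≤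
      ENNReal.ofReal (δ ^ 2) * ∫⁻ q : ℂ × ℝ, N (z - q.2 • q.1) ^ 2
        ∂(ν.prod ((volume : Measure ℝ).restrict (Set.Ioc (0:ℝ) 1))) := by
    intro z hz
    have hzK' : ∀ w : ℂ, ‖w‖ ≤ δ → z - w ∈ K' := hmem z hz
    have hint : Integrable (fun w => (f.normed volume w : ℂ) * χ (z - w)) := by
      have hco : ContinuousOn (fun w => (f.normed volume w : ℂ) * χ (z - w))
          (Metric.closedBall (0:ℂ) δ) := by
        refine ContinuousOn.mul ?_ ?_
        · exact (Complex.continuous_ofReal.comp f.continuous_normed).continuousOn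
        · refine hχ.continuousOn.comp (by fun_prop) ?_
          intro w hw
          exact hsD (hzK' w (by simpa using hw))
      have h1 := hco.integrableOn_compact (μ := volume) (isCompact_closedBall _ _)
      rw [← integrableOn_iff_integrable_of_support_subset (s := Metric.closedBall (0:ℂ) δ)]
      · exact h1
      · intro w hw
        by_contra hw'
        apply hw
        have : δ < ‖w‖ := by simpa using hw'
        simp [hρz w this]
    have hint2 : Integrable (fun w => (f.normed volume w : ℂ) * χ z) :=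
      (f.integrable_normed.ofReal).mul_const _
    have e1 : χ z - ∫ w, (f.normed volume w : ℂ) * χ (z - w) =
        ∫ w, (f.normed volume w : ℂ) * (χ z - χ (z - w)) := by
      have : ∫ w, (f.normed volume w : ℂ) * χ z = χ z := by
        rw [integral_mul_const, integral_complex_ofReal, f.integral_normed]
        simp
      nth_rewrite 1 [← this]
      rw [← integral_sub hint2 hint]
      congr 1
      funext w
      ring
    have hb : ‖χ z - ∫ w, (f.normed volume w : ℂ) * χ (z - w)‖ₑ ≤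
        ∫⁻ q : ℂ × ℝ, ENNReal.ofReal δ * N (z - q.2 • q.1)
          ∂(ν.prod ((volume : Measure ℝ).restrict (Set.Ioc (0:ℝ) 1))) := by
      rw [lintegral_prod _ (by fun_prop), hν, lintegral_withDensity_eq_lintegral_mul _ hρm (by fun_prop), e1]
      refine le_trans (enorm_integral_le_lintegral_enorm _) ?_
      refine lintegral_mono (fun w => ?_)
      simp only [Pi.mul_apply]
      rw [enorm_mul]
      by_cases hw : ‖w‖ ≤ δ
      · have e2 : ‖(f.normed volume w : ℂ)‖ₑ = ENNReal.ofReal (f.normed volume w) := by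
          rw [← ofReal_norm, Complex.norm_real, Real.norm_of_nonneg (hρ0 w)]
        rw [e2]
        gcongr
        have hseg : ∀ t ∈ Set.Icc (0:ℝ) 1, z - t • w ∈ K' := by
          intro t ht
          apply hzK'
          rw [norm_smul, Real.norm_of_nonneg ht.1]
          have := mul_le_mul ht.2 hw (norm_nonneg w) zero_le_one
          linarith
        refine le_trans (ptwise D hDo χ hχ z w (fun t ht => hsD (hseg t ht))) ?_
        refine setLIntegral_mono (by fun_prop) (fun t ht => ?_)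
        have hm := hseg t ⟨ht.1.le, ht.2⟩
        rw [hN, Set.indicator_of_mem hm, ENNReal.ofReal_mul (norm_nonneg w)]
        gcongr
      · rw [hρz w (not_le.mp hw)]
        simp
    have hh := holder (ν.prod ((volume : Measure ℝ).restrict (Set.Ioc (0:ℝ) 1)))
      (fun q : ℂ × ℝ => ENNReal.ofReal δ * N (z - q.2 • q.1)) (by fun_prop)
    calc ENNReal.ofReal (‖χ z - ∫ w, (f.normed volume w : ℂ) * χ (z - w)‖ ^ 2)
        = ‖χ z - ∫ w, (f.normed volume w : ℂ) * χ (z - w)‖ₑ ^ 2 := by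
          rw [ENNReal.ofReal_pow (norm_nonneg _), ofReal_norm]
      _ ≤ (∫⁻ q : ℂ × ℝ, ENNReal.ofReal δ * N (z - q.2 • q.1)
          ∂(ν.prod ((volume : Measure ℝ).restrict (Set.Ioc (0:ℝ) 1)))) ^ 2 := by gcongr
      _ ≤ _ := hh
      _ = ENNReal.ofReal (δ ^ 2) * ∫⁻ q : ℂ × ℝ, N (z - q.2 • q.1) ^ 2
        ∂(ν.prod ((volume : Measure ℝ).restrict (Set.Ioc (0:ℝ) 1))) := by
          rw [← lintegral_const_mul _ (by fun_prop)]
          congr 1
          funext q
          rw [mul_pow, ENNReal.ofReal_pow hδ.le]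
  -- conclusion
  by_cases hLi : IntegrableOn (fun z => ‖χ z - ∫ w, (f.normed volume w : ℂ) * χ (z - w)‖ ^ 2) K
  · have hL := ofReal_integral_eq_lintegral_ofReal hLi
      (Eventually.of_forall (fun z => by positivity))
    have hg0 : 0 ≤ ∫ z in K', (‖dx χ z‖ ^ 2 + ‖dy χ z‖ ^ 2) :=
      integral_nonneg (fun z => by positivity)
    rw [← ENNReal.ofReal_le_ofReal_iff (by positivity), hL]
    calc ∫⁻ z in K, ENNReal.ofReal (‖χ z - ∫ w, (f.normed volume w : ℂ) * χ (z - w)‖ ^ 2)
        ≤ ∫⁻ z in K, ENNReal.ofReal (δ ^ 2) * ∫⁻ q : ℂ × ℝ, N (z - q.2 • q.1) ^ 2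
          ∂(ν.prod ((volume : Measure ℝ).restrict (Set.Ioc (0:ℝ) 1))) :=
          setLIntegral_mono' hK.measurableSet hP
      _ = ENNReal.ofReal (δ ^ 2) * ∫⁻ z in K, ∫⁻ q : ℂ × ℝ, N (z - q.2 • q.1) ^ 2
          ∂(ν.prod ((volume : Measure ℝ).restrict (Set.Ioc (0:ℝ) 1))) := by
          rw [lintegral_const_mul]
          exact Measurable.lintegral_prod_right' (f := fun q : ℂ × (ℂ × ℝ) =>
            N (q.1 - q.2.2 • q.2.1) ^ 2) (hGm.pow_const 2)
      _ = ENNReal.ofReal (δ ^ 2) * ∫⁻ q : ℂ × ℝ, (∫⁻ z in K, N (z - q.2 • q.1) ^ 2)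
          ∂(ν.prod ((volume : Measure ℝ).restrict (Set.Ioc (0:ℝ) 1))) := by
          rw [lintegral_lintegral_swap]
          exact (hGm.pow_const 2).aemeasurable
      _ ≤ ENNReal.ofReal (δ ^ 2) * ∫⁻ q : ℂ × ℝ, (∫⁻ z, N z ^ 2)
          ∂(ν.prod ((volume : Measure ℝ).restrict (Set.Ioc (0:ℝ) 1))) := by
          refine mul_le_mul_right (lintegral_mono (fun q => ?_)) _
          refine le_trans (setLIntegral_le_lintegral _ _) ?_
          rw [lintegral_sub_right_eq_self (fun z => N z ^ 2) (q.2 • q.1)]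
      _ = ENNReal.ofReal (δ ^ 2) * ∫⁻ z, N z ^ 2 := by
          rw [lintegral_const, measure_univ, mul_one]
      _ ≤ ENNReal.ofReal (δ ^ 2) *
          (2 * ENNReal.ofReal (∫ z in K', (‖dx χ z‖ ^ 2 + ‖dy χ z‖ ^ 2))) := by gcongr
      _ ≤ ENNReal.ofReal (ε * ∫ z in K', (‖dx χ z‖ ^ 2 + ‖dy χ z‖ ^ 2)) := by
          have e2 : (2 : ℝ≥0∞) = ENNReal.ofReal 2 := by simp
          rw [e2, ← ENNReal.ofReal_mul (by norm_num), ← ENNReal.ofReal_mul (by positivity)]
          apply ENNReal.ofReal_le_ofReal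
          nlinarith
  · rw [integral_undef hLi]
    positivity

end Pool.Agent.W849.RW.RA
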